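import Pool.Agent.Helper42.RD.Goals2
import Pool.Agent.Helper90.RP.DUAL

/-!
# Packet RE-OMG (MP_fc6b1e_nt): elements of type omega
-/

namespace Pool.Agent.Helper33.RD

open NumberField Polynomial Module IsDedekindDomain TensorProduct Pool.Agent.Helper51.SigLeo
open Pool.Agent.Helper51.RP Pool.Agent.Helper42.RD Pool.Agent.Helper90.RP.Dual

section aux

variable {M : Type} [Field M] [NumberField M]

theorem val_le_one_of (v : HeightOneSpectrum (𝓞 M)) {x : M} (hx : v.valuation M (x - 1) < 1) :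
    v.valuation M x ≤ 1 := by
  have h1 : x = (x - 1) + 1 := by ring
  rw [h1]
  refine (Valuation.map_add _ _ _).trans ?_
  rw [map_one]
  exact max_le hx.le le_rfl

/-- The elements congruent to one are closed under products. -/
theorem one_mul_mem (v : HeightOneSpectrum (𝓞 M)) {x y : M}
    (hx : v.valuation M (x - 1) < 1) (hy : v.valuation M (y - 1) < 1) :
    v.valuation M (x * y - 1) < 1 := by
  have h1 : x * y - 1 = x * (y - 1) + (x - 1) := by ring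
  rw [h1]
  refine (Valuation.map_add _ _ _).trans_lt (max_lt ?_ hx)
  rw [map_mul]
  calc v.valuation M x * v.valuation M (y - 1) ≤ 1 * v.valuation M (y - 1) := by
        gcongr
        exact val_le_one_of v hx
    _ = v.valuation M (y - 1) := one_mul _
    _ < 1 := hy

theorem one_pow_mem (v : HeightOneSpectrum (𝓞 M)) {x : M}
    (hx : v.valuation M (x - 1) < 1) (n : ℕ) : v.valuation M (x ^ n - 1) < 1 := by
  induction n with
  | zero => simp
  | succ n ih => rw [pow_succ]; exact one_mul_mem v ih hx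

theorem one_prod_mem (v : HeightOneSpectrum (𝓞 M)) {ι : Type*} (s : Finset ι) (f : ι → M)
    (h : ∀ i ∈ s, v.valuation M (f i - 1) < 1) : v.valuation M (∏ i ∈ s, f i - 1) < 1 := by
  classical
  induction s using Finset.induction_on with
  | empty => simp
  | insert i s hi ih =>
    rw [Finset.prod_insert hi]
    exact one_mul_mem v (h i (Finset.mem_insert_self i s))
      (ih fun j hj => h j (Finset.mem_insert_of_mem hj))

theorem ordv_pow (v : HeightOneSpectrum (𝓞 M)) {x : M} (hx : x ≠ 0) (n : ℕ) :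
    ordv v (x ^ n) = n * ordv v x := by
  induction n with
  | zero => simp [ordv]
  | succ n ih => rw [pow_succ, ordv_mul v (pow_ne_zero n hx) hx, ih]; push_cast; ring

theorem dvd_ordv_prod (p : ℕ) (v : HeightOneSpectrum (𝓞 M)) {ι : Type*} (s : Finset ι) (f : ι → M)
    (h0 : ∀ i ∈ s, f i ≠ 0) (h : ∀ i ∈ s, (p : ℤ) ∣ ordv v (f i)) :
    (p : ℤ) ∣ ordv v (∏ i ∈ s, f i) := by
  classical
  induction s using Finset.induction_on with
  | empty => simp [ordv]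
  | insert i s hi ih =>
    rw [Finset.prod_insert hi, ordv_mul v (h0 i (Finset.mem_insert_self i s))
      (Finset.prod_ne_zero_iff.2 fun j hj => h0 j (Finset.mem_insert_of_mem hj))]
    exact dvd_add (h i (Finset.mem_insert_self i s))
      (ih (fun j hj => h0 j (Finset.mem_insert_of_mem hj))
        fun j hj => h j (Finset.mem_insert_of_mem hj))

end aux

/-- **E_OMG.** -/
theorem e_omg : Pool.Agent.Helper42.RD.E_OMG := by
  classical
  intro p hp K K₁ _ _ _ _ _ hGal ε hε b hb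
  have : FiniteDimensional K K₁ := inferInstance
  have hp0 : p ≠ 0 := hp.out.ne_zero
  have hbK : (b : K₁) ≠ 0 := by
    intro h
    exact hb (RingOfIntegers.ext (by simpa using h))
  -- the exponents
  have hex : ∀ σ : K₁ ≃ₐ[K] K₁, ∃ m : ℕ, ε ^ m = σ ε := by
    intro σ
    obtain ⟨i, -, hi⟩ := hε.eq_pow_of_pow_eq_one (ξ := σ ε)
      (by rw [← map_pow, hε.pow_eq_one, map_one])
    exact ⟨i, hi⟩
  choose n₀ hn₀ using hex
  let n : (K₁ ≃ₐ[K] K₁) → ℕ := fun σ => if σ = 1 then 1 else n₀ σ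
  have hn : ∀ σ, σ ε = ε ^ (n σ) := by
    intro σ
    by_cases h : σ = 1
    · simp only [n, h, if_true, pow_one]; rfl
    · simp only [n, if_neg h]; exact (hn₀ σ).symm
  have hn1 : n 1 = 1 := by simp [n]
  have hnmul : ∀ σ τ : K₁ ≃ₐ[K] K₁, ∃ k : ℤ, (n (σ * τ) : ℤ) = n σ * n τ + p * k := by
    intro σ τ
    have h1 : ε ^ (n (σ * τ)) = ε ^ (n σ * n τ) := by
      rw [← hn (σ * τ)]
      show σ (τ ε) = _
      rw [hn τ, map_pow, hn σ, ← pow_mul]
    have h2 : n (σ * τ) ≡ n σ * n τ [MOD p] := by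
      obtain ⟨u, hu⟩ := hε.isUnit hp0
      rw [← hu] at h1
      have h4 : u ^ (n (σ * τ)) = u ^ (n σ * n τ) := by
        apply Units.ext
        push_cast
        exact h1
      have h5 : IsPrimitiveRoot u p := IsPrimitiveRoot.coe_units_iff.1 (by rw [hu]; exact hε)
      rw [h5.eq_orderOf]
      exact pow_eq_pow_iff_modEq.1 h4
    have h3 : (p : ℤ) ∣ (n (σ * τ) : ℤ) - ((n σ * n τ : ℕ) : ℤ) :=
      (Nat.modEq_iff_dvd.1 h2.symm)
    obtain ⟨k, hk⟩ := h3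
    refine ⟨k, ?_⟩
    push_cast at hk
    linarith
  -- the conjugates of `b`
  let sb : (K₁ ≃ₐ[K] K₁) → 𝓞 K₁ := fun σ => RingOfIntegers.mapRingEquiv (σ : K₁ ≃+* K₁) b
  have hsb : ∀ σ, ((sb σ : 𝓞 K₁) : K₁) = σ (b : K₁) := fun σ => rfl
  have hsb0 : ∀ σ, sb σ ≠ 0 := by
    intro σ
    exact (map_ne_zero_iff _ (RingEquiv.injective _)).2 hb
  have hsbK : ∀ σ : K₁ ≃ₐ[K] K₁, σ (b : K₁) ≠ 0 := fun σ =>
    (map_ne_zero_iff _ (AlgEquiv.injective σ)).2 hbK
  have hcoe : ((∏ σ : K₁ ≃ₐ[K] K₁, sb σ ^ (n σ⁻¹) : 𝓞 K₁) : K₁) =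
      ∏ σ : K₁ ≃ₐ[K] K₁, σ (b : K₁) ^ (n σ⁻¹) := by
    change algebraMap (𝓞 K₁) K₁ (∏ σ : K₁ ≃ₐ[K] K₁, sb σ ^ (n σ⁻¹)) = _
    rw [map_prod]
    exact Finset.prod_congr rfl fun σ _ => by rw [map_pow]; rfl
  -- the conjugate primes
  have hconj : ∀ (Q : HeightOneSpectrum (𝓞 K₁)) (σ : K₁ ≃ₐ[K] K₁),
      ∃ Q' : HeightOneSpectrum (𝓞 K₁), ConjP K Q' Q ∧
        ∀ y : K₁, Q'.valuation K₁ y = Q.valuation K₁ (σ y) := by
    intro Q σ
    obtain ⟨w, hw⟩ := exists_conj (K := K) σ⁻¹ Q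
    refine ⟨w, ⟨σ⁻¹, hw⟩, fun y => ?_⟩
    rw [← hw (σ y)]
    congr 1
    exact (AlgEquiv.symm_apply_apply σ y).symm
  refine ⟨∏ σ : K₁ ≃ₐ[K] K₁, sb σ ^ (n σ⁻¹), ?_, ?_, ?_, ?_, ?_⟩
  · exact Finset.prod_ne_zero_iff.2 fun σ _ => pow_ne_zero _ (hsb0 σ)
  · -- the type
    intro τ
    rw [hcoe]
    choose k hk using fun ρ : K₁ ≃ₐ[K] K₁ => hnmul ρ⁻¹ τ
    refine ⟨n τ, ∏ ρ : K₁ ≃ₐ[K] K₁, ρ (b : K₁) ^ (k ρ), hn τ, ?_⟩
    rw [map_prod]
    have h1 : ∏ σ : K₁ ≃ₐ[K] K₁, τ (σ (b : K₁) ^ (n σ⁻¹)) =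
        ∏ ρ : K₁ ≃ₐ[K] K₁, ρ (b : K₁) ^ (n (ρ⁻¹ * τ)) := by
      apply Fintype.prod_equiv (Equiv.mulLeft τ)
      intro σ
      rw [map_pow]
      have h2 : ((Equiv.mulLeft τ) σ)⁻¹ * τ = σ⁻¹ := by
        rw [Equiv.coe_mulLeft]; group
      rw [h2]
      rfl
    rw [h1, ← Finset.prod_pow, ← Finset.prod_pow, ← Finset.prod_mul_distrib]
    apply Finset.prod_congr rfl
    intro ρ _
    rw [← zpow_natCast (ρ (b : K₁)) (n (ρ⁻¹ * τ)), hk ρ, zpow_add₀ (hsbK ρ)]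
    congr 1
    · rw [← pow_mul, ← zpow_natCast]
      push_cast
      rfl
    · rw [← zpow_natCast, ← zpow_mul, mul_comm]
  · -- the congruence
    intro hdvd
    rw [← Ideal.mem_span_singleton] at hdvd ⊢
    have key : ∀ x : 𝓞 K₁, x - 1 ∈ Ideal.span {(p : 𝓞 K₁) ^ 3} ↔
        Ideal.Quotient.mk (Ideal.span {(p : 𝓞 K₁) ^ 3}) x = 1 := by
      intro x
      rw [← map_one (Ideal.Quotient.mk (Ideal.span {(p : 𝓞 K₁) ^ 3})), Ideal.Quotient.eq]
    rw [key, map_prod]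
    apply Finset.prod_eq_one
    intro σ _
    rw [map_pow]
    have h1 : Ideal.Quotient.mk (Ideal.span {(p : 𝓞 K₁) ^ 3}) (sb σ) = 1 := by
      rw [← key, Ideal.mem_span_singleton]
      rw [Ideal.mem_span_singleton] at hdvd
      obtain ⟨c, hc⟩ := hdvd
      refine ⟨RingOfIntegers.mapRingEquiv (σ : K₁ ≃+* K₁) c, ?_⟩
      have h2 := congrArg (RingOfIntegers.mapRingEquiv (σ : K₁ ≃+* K₁)) hc
      rw [map_sub, map_one, map_mul, map_pow, map_natCast] at h2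
      exact h2
    rw [h1, one_pow]
  · -- the valuations
    intro Q hQ
    rw [hcoe]
    apply dvd_ordv_prod
    · exact fun σ _ => pow_ne_zero _ (hsbK σ)
    · intro σ _
      rw [ordv_pow Q (hsbK σ)]
      obtain ⟨Q', hc, hv⟩ := hconj Q σ
      have h1 : ordv Q (σ (b : K₁)) = ordv Q' (b : K₁) := by
        unfold ordv
        rw [hv]
      rw [h1]
      exact Dvd.dvd.mul_left (hQ Q' hc) _
  · -- the congruence at a free prime
    intro Q hfree hQ
    rw [hcoe]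
    have h1 : (∏ σ : K₁ ≃ₐ[K] K₁, σ (b : K₁) ^ (n σ⁻¹)) / (b : K₁) =
        ∏ σ ∈ Finset.univ.erase (1 : K₁ ≃ₐ[K] K₁), σ (b : K₁) ^ (n σ⁻¹) := by
      rw [← Finset.mul_prod_erase Finset.univ _ (Finset.mem_univ (1 : K₁ ≃ₐ[K] K₁)), inv_one, hn1,
        pow_one]
      show (b : K₁) * _ / (b : K₁) = _
      rw [mul_div_cancel_left₀ _ hbK]
    rw [h1]
    apply one_prod_mem
    intro σ hσ
    apply one_pow_mem
    obtain ⟨Q', hc, hv⟩ := hconj Q σ
    have hne : Q' ≠ Q := by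
      rintro rfl
      exact (Finset.ne_of_mem_erase hσ) (hfree σ fun y => (hv y).symm)
    have h2 := hQ Q' hc hne
    rw [hv, map_sub, map_one] at h2
    exact h2

end Pool.Agent.Helper33.RD
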